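import Pool.Agent.R782.Bal.Main

/-!
# The proper Singer property for actions on the Davis manifolds of coloured spheres

Let `L` be the flag complex of the finite graph `G` and suppose that `L` is a real homology manifold with the real
homology of the `(n-1)`-sphere (`HSph n G`).  The Davis complex of the right-angled Coxeter group `W G` is then a
contractible real homology `n`-manifold (a topological manifold if `L` is a combinatorial sphere) with a proper and
cocompact action of `W G`, and of all its subgroups of finite index.

(1) `G = cs X col` is the subdivision of a simplicial complex `X` embedded in the sphere of dimension `2 d` in which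
only the monochromatic simplices, for a small colouring of the vertices, are subdivided.
(2) `G` is in the class `SQ (n / 2 + 1)`, which has as a base the `(d + 1)`-colourable flag complexes embedded in the
sphere of dimension `2 d`.
-/

set_option autoImplicit false

namespace Pool.Agent.Results.MP_cddda8_gt.ColouredSpheres

open Pool.Agent.W907.SG Pool.Agent.R782.Bal
open Pool.Agent.TH652.Above (HSph chi_sign)

/-- The reduced `ℓ²`-homology of the Davis complex of `W G` vanishes in all degrees `i ≠ n / 2`, and for `n = 2 m` the
number `(-1)^m χ(W G)` is not negative, if the flag complex of `G` is a real homology sphere of dimension `n - 1` and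
(1) `G = cs X col`, for `X` embedded in the sphere of dimension `2 d`, `n = 2 d` or `2 d + 1`, and a small colouring
of its vertices; or (2) `G` is in the class `SQ (n / 2 + 1)`. -/
theorem result :
    (∀ (d n N k : ℕ) (X : Finset (Finset (Fin N))) (col : Fin N → Fin k), (n = 2 * d ∨ n = 2 * d + 1) →
      (∀ σ ∈ X, ∀ τ : Finset (Fin N), τ ⊆ σ → τ ∈ X) → Small d X col → EmbX d X col →
      ∀ [Fintype (MF X col)] [LinearOrder (MF X col)], HSph n (cs X col) →
        (∀ i : ℕ, 2 * i ≠ n → L2Van (cs X col) i) ∧ (n = 2 * d → 0 ≤ (-1 : ℚ) ^ d * chiW (cs X col))) ∧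
    (∀ (n : ℕ) (V : Type) [Fintype V] [LinearOrder V] (G : SimpleGraph V), HSph n G → SQ (n / 2 + 1) G →
      (∀ i : ℕ, 2 * i ≠ n → L2Van G i) ∧ (∀ m : ℕ, n = 2 * m → 0 ≤ (-1 : ℚ) ^ m * chiW G)) := by
  refine ⟨?_, ?_⟩
  · intro d n N k X col hn hX hs hE _ _ hS
    have h1 : ∀ i : ℕ, 2 * i ≠ n → L2Van (cs X col) i := fun i hi => singer_cs hn hX hs hE hS i hi
    refine ⟨h1, ?_⟩
    rintro rfl
    exact chi_sign _ fun i hi => h1 i (by omega)
  · intro n V _ _ G hS hA
    have h1 : ∀ i : ℕ, 2 * i ≠ n → L2Van G i := fun i hi => singer_SQ hS hA i hi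
    refine ⟨h1, ?_⟩
    rintro m rfl
    exact chi_sign _ fun i hi => h1 i (by omega)

end Pool.Agent.Results.MP_cddda8_gt.ColouredSpheres
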